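import Mathlib
import Pool.Agent.Lib.DH7.Main

set_option autoImplicit false

open Finset Relation

namespace Pool.Agent.Lib.CE45

open Pool.Agent.Lib.MP_15a8b6_co Pool.Agent.Lib.DH7

variable {V X E : Type*}

/-- Two walks for every edge, one from each end, that stop next to each other. -/
structure Darts (root : V → X) (t : E × Bool → V) (p : E × Bool → ℕ → X) (k : E × Bool → ℕ)
    (R : X → X → Prop) : Prop where
  inj : Function.Injective root
  start : ∀ r, p r 0 = root (t r)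
  step : ∀ r i, i < k r → R (p r i) (p r (i + 1))
  symm : ∀ a b, R a b → R b a
  roots : ∀ r i v, i ≤ k r → p r i = root v → v = t r
  link : ∀ e, R (p (e, false) (k (e, false))) (p (e, true) (k (e, true)))
  pair : ∀ r s i j, i ≤ k r → j ≤ k s → p r i = p s j → t r ≠ t s →
    ∃ h, (h = r.1 ∨ h = s.1) ∧ ((t (h, false) = t r ∧ t (h, true) = t s) ∨
      (t (h, false) = t s ∧ t (h, true) = t r))
  triple : ∀ r s g i j l, i ≤ k r → j ≤ k s → l ≤ k g → p r i = p s j → p r i = p g l →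
    t r ≠ t s → t g = t r ∨ t g = t s

/-- The points given to `v` by the choice `m` of a first visitor. -/
def Own (root : V → X) (t : E × Bool → V) (m : X → Option ((E × Bool) × ℕ)) (v : V) : Set X :=
  {x | x = root v ∨ (x ∉ Set.range root ∧ ∃ a, m x = some a ∧ t a.1 = v)}

/-- The territory of `v`. -/
def Ter (root : V → X) (t : E × Bool → V) (R : X → X → Prop) (m : X → Option ((E × Bool) × ℕ))
    (v : V) : Set X :=
  {x | ConnIn R (Own root t m v) (root v) x}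

/-- `m` chooses a first visitor for the delays `d`. -/
def First (p : E × Bool → ℕ → X) (k : E × Bool → ℕ) (M : ℕ) (d : E → ℕ)
    (m : X → Option ((E × Bool) × ℕ)) : Prop :=
  (∀ x a, m x = some a → a.2 ≤ k a.1 ∧ p a.1 a.2 = x) ∧
    ∀ r i, i ≤ k r → ∃ a, m (p r i) = some a ∧ d a.1.1 + M * a.2 ≤ d r.1 + M * i

variable {root : V → X} {t : E × Bool → V} {p : E × Bool → ℕ → X} {k : E × Bool → ℕ}
  {R : X → X → Prop}

theorem exists_first (p : E × Bool → ℕ → X) (k : E × Bool → ℕ) (M : ℕ) (d : E → ℕ) :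
    ∃ m, First p k M d m := by
  classical
  have h : ∀ x : X, ∃ o : Option ((E × Bool) × ℕ), (∀ a, o = some a → a.2 ≤ k a.1 ∧ p a.1 a.2 = x) ∧
      ∀ r i, i ≤ k r → p r i = x → ∃ a, o = some a ∧ d a.1.1 + M * a.2 ≤ d r.1 + M * i := by
    intro x
    by_cases hx : ∃ a : (E × Bool) × ℕ, a.2 ≤ k a.1 ∧ p a.1 a.2 = x
    · obtain ⟨a, ha, hmin⟩ := (InvImage.wf (fun a : (E × Bool) × ℕ => d a.1.1 + M * a.2)
        Nat.lt_wfRel.wf).has_min {a | a.2 ≤ k a.1 ∧ p a.1 a.2 = x} hx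
      refine ⟨some a, fun b hb => ?_, fun r i h1 h2 => ⟨a, rfl, not_lt.1 (hmin (r, i) ⟨h1, h2⟩)⟩⟩
      obtain rfl := Option.some.inj hb
      exact ha
    · exact ⟨none, fun a ha => absurd ha (by simp), fun r i h1 h2 => absurd ⟨(r, i), h1, h2⟩ hx⟩
  choose m h1 h2 using h
  exact ⟨m, h1, fun r i hi => h2 _ r i hi rfl⟩

theorem ter_step {m : X → Option ((E × Bool) × ℕ)} {v : V} {x y : X} (hx : x ∈ Ter root t R m v)
    (hR : R x y) (hy : y ∈ Own root t m v) : y ∈ Ter root t R m v :=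
  ReflTransGen.tail hx ⟨hR, ConnIn.mem hx (Or.inl rfl), hy⟩

/-- The first contact satisfies one edge, for all nearby delays. -/
theorem first_contact [Nonempty E] (w : Darts root t p k R) (σ : Set (E → ℕ)) (δ K : ℕ)
    (hK : ∀ r, (2 * δ + 1) * k r ≤ K)
    (hσ : ∀ d ∈ σ, ∀ d' ∈ σ, ∀ e, d e ≤ d' e + δ) {d0 : E → ℕ} (hd0 : d0 ∈ σ)
    (m : (E → ℕ) → X → Option ((E × Bool) × ℕ)) (hm : ∀ d, First p k (2 * δ + 1) d (m d)) :
    ∃ h, (∀ d ∈ σ, ∃ a ∈ Ter root t R (m d) (t (h, false)), ∃ b ∈ Ter root t R (m d) (t (h, true)),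
      R a b) ∧ ∀ e, d0 h ≤ d0 e + K := by
  classical
  obtain ⟨M, hM⟩ : ∃ M, M = 2 * δ + 1 := ⟨_, rfl⟩
  rw [← hM] at hK hm
  let Ev : ℕ → Prop := fun τ => (∃ e, d0 e + M * k (e, false) ≤ τ ∧ d0 e + M * k (e, true) ≤ τ) ∨
    ∃ r s i j, i < k r ∧ j < k s ∧ p r (i + 1) = p s (j + 1) ∧ t r ≠ t s ∧
      d0 r.1 + M * i ≤ τ ∧ d0 s.1 + M * j ≤ τ
  have hK' : ∀ e, Ev (d0 e + K) := fun e =>
    Or.inl ⟨e, Nat.add_le_add_left (hK _) _, Nat.add_le_add_left (hK _) _⟩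
  have hex : ∃ τ, Ev τ := ⟨_, hK' (Classical.arbitrary E)⟩
  obtain ⟨T, hT, hmin⟩ : ∃ T, Ev T ∧ ∀ τ, Ev τ → T ≤ τ :=
    ⟨Nat.find hex, Nat.find_spec hex, fun τ h => Nat.find_min' hex h⟩
  have hpass : ∀ d ∈ σ, ∀ g l, l ≤ k g → d0 g.1 + M * l ≤ T → p g l ∈ Ter root t R (m d) (t g) := by
    intro d hd g l
    induction l with
    | zero => exact fun _ _ => by rw [w.start]; exact ReflTransGen.refl
    | succ l ih =>
      intro h1 h2
      rw [mul_add, mul_one] at h2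
      refine ter_step (ih (by omega) (by omega)) (w.step g l h1) ?_
      by_cases h3 : p g (l + 1) ∈ Set.range root
      · obtain ⟨v, hv⟩ := h3
        exact Or.inl (by rw [← w.roots g (l + 1) v h1 hv.symm, hv])
      obtain ⟨⟨f, j⟩, a1, a2⟩ := (hm d).2 g (l + 1) h1
      obtain ⟨a3, a4⟩ := (hm d).1 _ _ a1
      dsimp only at a2 a3 a4
      refine Or.inr ⟨h3, (f, j), a1, ?_⟩
      by_contra a5
      cases j with
      | zero => exact h3 ⟨t f, (w.start f).symm.trans a4⟩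
      | succ j =>
        rw [mul_add, mul_add, mul_one] at a2
        have h8 := hσ d0 hd0 d hd f.1
        have h9 := hσ d hd d0 hd0 g.1
        have := hmin (T - 1) (Or.inr ⟨f, g, j, l, a3, h1, a4, a5, by omega, by omega⟩)
        omega
  rcases hT with ⟨e, h1, h2⟩ | ⟨r, s, i, j, h1, h2, h3, h4, h5, h6⟩
  · refine ⟨e, fun d hd => ⟨_, hpass d hd (e, false) _ le_rfl h1, _,
      hpass d hd (e, true) _ le_rfl h2, w.link e⟩, fun e' => ?_⟩
    have := hmin _ (hK' e')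
    omega
  have h8 : p r (i + 1) ∉ Set.range root := by
    rintro ⟨v, hv⟩
    exact h4 ((w.roots r _ v h1 hv.symm).symm.trans (w.roots s _ v h2 (h3.symm.trans hv.symm)))
  have h9 : ∀ d ∈ σ, ∃ a ∈ Ter root t R (m d) (t r), ∃ b ∈ Ter root t R (m d) (t s), R a b := by
    intro d hd
    have a1 := hpass d hd r i h1.le h5
    have a2 := hpass d hd s j h2.le h6
    obtain ⟨⟨g, l⟩, b1, -⟩ := (hm d).2 r (i + 1) h1
    obtain ⟨b2, b3⟩ := (hm d).1 _ _ b1
    have b4 : R (p s j) (p r (i + 1)) := h3 ▸ w.step s j h2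
    rcases w.triple r s g _ _ l h1 h2 b2 h3 b3.symm h4 with b5 | b5
    · exact ⟨_, ter_step a1 (w.step r i h1) (Or.inr ⟨h8, (g, l), b1, b5⟩), _, a2, w.symm _ _ b4⟩
    · exact ⟨_, a1, _, ter_step a2 b4 (Or.inr ⟨h8, (g, l), b1, b5⟩), w.step r i h1⟩
  obtain ⟨h, c1, c2⟩ := w.pair r s _ _ h1 h2 h3 h4
  refine ⟨h, fun d hd => ?_, fun e' => ?_⟩
  · obtain ⟨a, ha, b, hb, hab⟩ := h9 d hd
    rcases c2 with ⟨c2, c3⟩ | ⟨c2, c3⟩ <;> rw [c2, c3]
    · exact ⟨a, ha, b, hb, hab⟩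
    · exact ⟨b, hb, a, ha, w.symm _ _ hab⟩
  · have := hmin _ (hK' e')
    rcases c1 with rfl | rfl <;> omega

/-- For suitable delays the territories of the two ends of every edge are adjacent. -/
theorem race [Finite E] (w : Darts root t p k R) : ∃ T : V → Set X, (∀ v, root v ∈ T v) ∧
    (∀ u v x, x ∈ T u → x ∈ T v → u = v) ∧ (∀ v, ∀ x ∈ T v, ConnIn R (T v) (root v) x) ∧
    (∀ v, ∀ x ∈ T v, x = root v ∨ ∃ r i, i ≤ k r ∧ p r i = x) ∧
    ∀ e, ∃ a ∈ T (t (e, false)), ∃ b ∈ T (t (e, true)), R a b := by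
  classical
  have := Fintype.ofFinite E
  obtain ⟨n, hn⟩ : ∃ n, n = Fintype.card E := ⟨_, rfl⟩
  choose m hm using fun d => exists_first p k (2 * n + 1) d
  suffices h : ∃ d, ∀ e, ∃ a ∈ Ter root t R (m d) (t (e, false)),
      ∃ b ∈ Ter root t R (m d) (t (e, true)), R a b by
    obtain ⟨d, hd⟩ := h
    have hown : ∀ v, ∀ x ∈ Ter root t R (m d) v, x ∈ Own root t (m d) v := fun v x hx =>
      ConnIn.mem hx (Or.inl rfl)
    refine ⟨Ter root t R (m d), fun v => ReflTransGen.refl, fun u v x h1 h2 => ?_,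
      fun v x hx => ?_, fun v x hx => ?_, hd⟩
    · rcases hown u x h1 with a1 | ⟨a1, a, a2, a3⟩ <;> rcases hown v x h2 with b1 | ⟨b1, b, b2, b3⟩
      · exact w.inj (a1.symm.trans b1)
      · exact absurd ⟨u, a1.symm⟩ b1
      · exact absurd ⟨v, b1.symm⟩ a1
      · rw [← a3, ← b3, Option.some.inj (a2.symm.trans b2)]
    · have hx' : ConnIn R (Own root t (m d) v) (root v) x := hx
      clear hx
      induction hx' with
      | refl => exact ReflTransGen.refl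
      | tail h1 h2 ih => exact ih.tail ⟨h2.1, h1, ReflTransGen.tail h1 h2⟩
    · rcases hown v x hx with a1 | ⟨-, a, a2, -⟩
      · exact Or.inl a1
      · exact Or.inr ⟨a.1, a.2, (hm d).1 _ _ a2⟩
  rcases isEmpty_or_nonempty E with hι | hι
  · exact ⟨fun _ => 0, fun e => (hι.false e).elim⟩
  by_contra hno
  obtain ⟨lab, hlab⟩ : ∃ lab : (E → ℕ) → E, ∀ d, ¬ ∃ a ∈ Ter root t R (m d) (t (lab d, false)),
      ∃ b ∈ Ter root t R (m d) (t (lab d, true)), R a b := by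
    have : ∀ d, ∃ e, ¬ ∃ a ∈ Ter root t R (m d) (t (e, false)),
      ∃ b ∈ Ter root t R (m d) (t (e, true)), R a b := fun d => not_forall.1 fun h => hno ⟨d, h⟩
    exact ⟨fun d => (this d).choose, fun d => (this d).choose_spec⟩
  obtain ⟨K, hK⟩ : ∃ K, ∀ r, (2 * n + 1) * k r ≤ K :=
    ⟨∑ r, (2 * n + 1) * k r, fun r => single_le_sum (f := fun r => (2 * n + 1) * k r)
      (fun _ _ => Nat.zero_le _) (mem_univ r)⟩
  obtain ⟨L, hL⟩ : ∃ L, L = n * (n + K + 1) := ⟨_, rfl⟩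
  obtain ⟨σ, x0, h1, h2, h3, h4, h5⟩ := grid L fun x => lab fun e => L - x e
  rw [← hn] at h3 h4 h5
  obtain ⟨e, he⟩ : ∃ e, n + K ≤ x0 e := by
    by_contra h6
    push Not at h6
    have h7 : ∑ i, x0 i ≤ ∑ _i : E, (n + K) := sum_le_sum fun i _ => (h6 i).le
    rw [sum_const, card_univ, smul_eq_mul, ← hn] at h7
    rw [hL, mul_add, mul_one] at h4
    omega
  obtain ⟨h, h6, h7⟩ := first_contact w ((fun x e => L - x e) '' σ) n K hK (by
    rintro _ ⟨x, hx, rfl⟩ _ ⟨x', hx', rfl⟩ i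
    have := h3 x' hx' x hx i
    dsimp only
    omega) ⟨x0, h1, rfl⟩ m hm
  have h8 := h7 e
  have h10 := h2 x0 h1 e
  have h11 := h2 x0 h1 h
  dsimp only at h8
  obtain ⟨x, hx, hx'⟩ := h5 h (by omega)
  exact hlab _ (hx' ▸ h6 _ ⟨x, hx, rfl⟩)

end Pool.Agent.Lib.CE45
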