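import Mathlib
import Pool.Agent.Lib.CE45.Race

set_option autoImplicit false

open Set Function Relation unitInterval

namespace Pool.Agent.Lib.CE45

open Pool.Agent.Lib.MP_15a8b6_co Pool.Agent.Lib.DH7

variable {V : Type*} {G : SimpleGraph V} {S : Type*} [TopologicalSpace S]

/-- The planarisation of a drawing, with the order of the points on every arc. -/
theorem planarise [Finite V] (D : Drawing G S) : ∃ (W : Finset S) (R : S → S → Prop),
    Emb S (G.edgeSet × I × I) W R ∧ (∀ v, D.pos v ∈ W) ∧ (∀ a b, R a b → R b a) ∧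
      ∀ e s t, D.arc e s ∈ W → D.arc e t ∈ W → s < t →
        (∀ r, D.arc e r ∈ W → ¬ (s < r ∧ r < t)) → R (D.arc e s) (D.arc e t) := by
  have hfin : (range D.pos ∪ ⋃ e, ⋃ f, ⋃ (_ : e ≠ f), range (D.arc e) ∩ range (D.arc f)).Finite :=
    (finite_range _).union (finite_iUnion fun e => finite_iUnion fun f => finite_iUnion fun h =>
      D.finite_inter e f h)
  set W := hfin.toFinset with hW
  have hpos : ∀ v, D.pos v ∈ W := fun v => hfin.mem_toFinset.2 (Or.inl ⟨v, rfl⟩)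
  have hcr : ∀ e f, e ≠ f → ∀ p ∈ range (D.arc e) ∩ range (D.arc f), p ∈ W := fun e f h p hp =>
    hfin.mem_toFinset.2 (Or.inr (mem_iUnion.2 ⟨e, mem_iUnion.2 ⟨f, mem_iUnion.2 ⟨h, hp⟩⟩⟩))
  have hT : ∀ e, (D.arc e ⁻¹' (W : Set S)).Finite := fun e =>
    W.finite_toSet.preimage (D.arc_inj e).injOn
  set F : Set (G.edgeSet × I × I) := {g | D.arc g.1 g.2.1 ∈ W ∧ D.arc g.1 g.2.2 ∈ W ∧
    g.2.1 < g.2.2 ∧ ∀ r, D.arc g.1 r ∈ W → ¬ (g.2.1 < r ∧ r < g.2.2)} with hF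
  refine ⟨W, fun a b => ∃ g ∈ F, s(D.arc g.1 g.2.1, D.arc g.1 g.2.2) = s(a, b),
    ⟨F, fun g => s(D.arc g.1 g.2.1, D.arc g.1 g.2.2), id, fun g => D.arc g.1 '' Icc g.2.1 g.2.2,
      ?_, ⟨injOn_id _, ?_, ?_, ?_⟩, fun _ _ _ _ _ h => h⟩, hpos, ?_,
      fun e s t h1 h2 h3 h4 => ⟨(e, s, t), ⟨h1, h2, h3, h4⟩, rfl⟩⟩
  · refine (finite_iUnion fun e : G.edgeSet =>
      (finite_singleton e).prod ((hT e).prod (hT e))).subset ?_
    rintro ⟨e, s, t⟩ h
    exact mem_iUnion.2 ⟨e, rfl, h.1, h.2.1⟩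
  · rintro ⟨e, s, t⟩ ⟨h1, h2, h3, -⟩
    exact ⟨_, h1, _, h2, rfl, isArc_sub (⟨D.arc e, rfl, rfl⟩ : Path _ _) (D.arc_inj e) h3⟩
  · rintro ⟨e, s, t⟩ ⟨-, -, -, h4⟩ w hw ⟨r, hr, rfl⟩
    rcases eq_or_lt_of_le hr.1 with h5 | h5
    · simp [← h5]
    rcases eq_or_lt_of_le hr.2 with h6 | h6
    · simp [h6]
    exact absurd ⟨h5, h6⟩ (h4 r hw)
  · rintro ⟨e, s, t⟩ ⟨h1, h2, -, h4⟩ ⟨f, s', t'⟩ ⟨h1', h2', -, h4'⟩ hne _
      ⟨⟨r, hr, rfl⟩, ⟨r', hr', h5⟩⟩
    refine ⟨_, ?_, rfl⟩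
    by_cases hef : e = f
    · subst hef
      obtain rfl := D.arc_inj e h5
      by_contra hc
      have h6 : ∀ q, D.arc e q ∈ W → q ≠ r' := by
        rintro q hq rfl
        exact hc hq
      have a1 : s < r' := lt_of_le_of_ne hr.1 (h6 s h1)
      have a2 : r' < t := lt_of_le_of_ne hr.2 (h6 t h2).symm
      have a3 : s' < r' := lt_of_le_of_ne hr'.1 (h6 s' h1')
      have a4 : r' < t' := lt_of_le_of_ne hr'.2 (h6 t' h2').symm
      apply hne
      rw [le_antisymm (not_lt.1 fun h : s' < s => h4' s h1 ⟨h, a1.trans a4⟩)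
          (not_lt.1 fun h : s < s' => h4 s' h1' ⟨h, a3.trans a2⟩),
        le_antisymm (not_lt.1 fun h : t' < t => h4 t' h2' ⟨a1.trans a4, h⟩)
          (not_lt.1 fun h : t < t' => h4' t h2 ⟨a3.trans a2, h⟩)]
    · exact hcr e f hef _ ⟨⟨r, rfl⟩, ⟨r', h5⟩⟩
  · rintro a b ⟨g, hg, h⟩
    exact ⟨g, hg, h.trans Sym2.eq_swap⟩

/-- The points of a finite set of parameters, listed from both ends up to the cut. -/
theorem halves {T : Set I} (hT : T.Finite) (h0 : (0 : I) ∈ T) (h1 : (1 : I) ∈ T) (c : I)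
    (C : I → I → Prop) (hs : ∀ s t, C s t → C t s)
    (hC : ∀ s t, s ∈ T → t ∈ T → s < t → (∀ r ∈ T, ¬ (s < r ∧ r < t)) → C s t) :
    ∃ (q : Bool → ℕ → I) (k : Bool → ℕ), q false 0 = 0 ∧ q true 0 = 1 ∧
      (∀ b i, i < k b → C (q b i) (q b (i + 1))) ∧ C (q false (k false)) (q true (k true)) ∧
      (∀ b i, i ≤ k b → q b i ∈ T) ∧ (∀ i, i ≤ k false → q false i ≤ c ∧ q false i ≠ 1) ∧
      ∀ i, i ≤ k true → (c < q true i ∨ q true i = 1) ∧ q true i ≠ 0 := by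
  classical
  have h2' : ∀ y, ReflTransGen (fun s t => s ∈ T ∧ t ∈ T ∧ s < t ∧ ∀ r ∈ T, ¬ (s < r ∧ r < t))
      0 y → ConnIn (fun s t => s < t ∧ C s t) T 0 y := by
    intro y hy
    induction hy with
    | refl => exact ReflTransGen.refl
    | tail _ h ih => exact ih.tail ⟨⟨h.2.2.1, hC _ _ h.1 h.2.1 h.2.2.1 h.2.2.2⟩, h.1, h.2.1⟩
  have h2 := h2' 1 (chain hT h0 1 h1)
  obtain ⟨q, n, a1, a2, a3, a4⟩ := conn_walk h2 h0
  have hlt : ∀ j, j ≤ n → ∀ i, i < j → q i < q j := by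
    intro j
    induction j with
    | zero => exact fun _ i hi => absurd hi (by omega)
    | succ j ih =>
      intro hj i hi
      rcases Nat.lt_succ_iff_lt_or_eq.1 hi with h | rfl
      · exact (ih (by omega) i h).trans (a3 j hj).1
      · exact (a3 i hj).1
  have hn : n ≠ 0 := by
    rintro rfl
    exact zero_ne_one (a1.symm.trans a2)
  have hex : ∃ i, i + 1 = n ∨ (i < n ∧ c < q (i + 1)) := ⟨n - 1, Or.inl (by omega)⟩
  obtain ⟨u, b1, b2⟩ : ∃ u, (u + 1 = n ∨ (u < n ∧ c < q (u + 1))) ∧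
      ∀ i, i < u → ¬ (i + 1 = n ∨ (i < n ∧ c < q (i + 1))) :=
    ⟨Nat.find hex, Nat.find_spec hex, fun i hi => Nat.find_min hex hi⟩
  have hu : u < n := by omega
  refine ⟨fun b i => if b then q (n - i) else q i, fun b => if b then n - (u + 1) else u,
    by simpa using a1, by simpa using a2, ?_, ?_, ?_, ?_, ?_⟩
  · rintro (_ | _) i hi
    · exact (a3 i (lt_trans (show i < u from hi) hu)).2
    · have hi' : i < n - (u + 1) := hi
      have h3 := (a3 (n - (i + 1)) (by omega)).2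
      rw [show n - (i + 1) + 1 = n - i by omega] at h3
      exact hs _ _ h3
  · show C (q u) (q (n - (n - (u + 1))))
    rw [show n - (n - (u + 1)) = u + 1 by omega]
    exact (a3 u hu).2
  · rintro (_ | _) i hi
    · exact a4 i (le_trans (show i ≤ u from hi) hu.le)
    · exact a4 (n - i) (by omega)
  · intro i hi
    have hi' : i ≤ u := hi
    show q i ≤ c ∧ q i ≠ 1
    refine ⟨?_, (a2 ▸ hlt n le_rfl i (by omega)).ne⟩
    cases i with
    | zero => rw [a1]; exact c.2.1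
    | succ i => exact not_lt.1 fun h => b2 i hi' (Or.inr ⟨by omega, h⟩)
  · intro i hi
    have hi' : i ≤ n - (u + 1) := hi
    show (c < q (n - i) ∨ q (n - i) = 1) ∧ q (n - i) ≠ 0
    refine ⟨?_, (a1 ▸ hlt (n - i) (by omega) 0 (by omega)).ne'⟩
    rcases b1 with b1 | b1
    · rw [show n - i = n by omega]
      exact Or.inr a2
    · rcases (show u + 1 ≤ n - i by omega).lt_or_eq with h | h
      · exact Or.inl (b1.2.trans (hlt (n - i) (by omega) _ h))
      · exact Or.inl (h ▸ b1.2)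

theorem cut_edges [Finite V] [T2Space S] [ChartedSpace (EuclideanSpace ℝ (Fin 2)) S]
    (D : Drawing G S) (c : G.edgeSet → unitInterval)
    (h3 : ∀ (e f g : G.edgeSet) (x : S), x ∉ range D.pos → x ∈ range (D.arc e) →
      x ∈ range (D.arc f) → x ∈ range (D.arc g) →
      ∃ v, v ∈ (e : Sym2 V) ∧ v ∈ (f : Sym2 V) ∧ v ∈ (g : Sym2 V))
    (h2 : ∀ (e f : G.edgeSet) (s t : unitInterval), e ≠ f → D.arc e s = D.arc f t →
      D.arc e s ∉ range D.pos → ∃ v, v ∈ (e : Sym2 V) ∧ v ∈ (f : Sym2 V) ∧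
        (D.pos v = D.arc e (if s ≤ c e then 0 else 1) ∨
          D.pos v = D.arc f (if t ≤ c f then 0 else 1))) :
    ∃ D' : Drawing G S, ∀ e f, e ≠ f → ¬ D'.Meet e f := by
  classical
  have := Fintype.ofFinite V
  choose u v hc hu hv using D.ends
  let t : G.edgeSet × Bool → V := fun r => if r.2 then v r.1 else u r.1
  have ht : ∀ r, t r ∈ (r.1 : Sym2 V) := by
    rintro ⟨e, _ | _⟩ <;> simp [t, hc e]
  obtain ⟨W, R, a1, a2, a3, a4⟩ := planarise D
  choose q k b1 b2 b3 b4 b5 b6 b7 using fun e : G.edgeSet =>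
    halves (T := D.arc e ⁻¹' (W : Set S)) (W.finite_toSet.preimage (D.arc_inj e).injOn)
      (by simpa [hu e] using a2 _) (by simpa [hv e] using a2 _) (c e)
      (fun s t => R (D.arc e s) (D.arc e t)) (fun _ _ => a3 _ _) (a4 e)
  have hroot : ∀ (r : G.edgeSet × Bool) i w, i ≤ k r.1 r.2 → D.arc r.1 (q r.1 r.2 i) = D.pos w →
      w = t r := by
    rintro ⟨e, _ | _⟩ i w hi h
    · rw [(D.avoid e _ w h).resolve_right (b6 e i hi).2, hu] at h
      exact (D.pos_inj h).symm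
    · rw [(D.avoid e _ w h).resolve_left (b7 e i hi).2, hv] at h
      exact (D.pos_inj h).symm
  have hown : ∀ (r : G.edgeSet × Bool) i, i ≤ k r.1 r.2 → D.arc r.1 (q r.1 r.2 i) ∉ range D.pos →
      D.arc r.1 (if q r.1 r.2 i ≤ c r.1 then 0 else 1) = D.pos (t r) := by
    rintro ⟨e, _ | _⟩ i hi h
    · rw [if_pos (b6 e i hi).1]
      exact hu e
    · rw [if_neg (not_le.2 ((b7 e i hi).1.resolve_right fun h' => h ⟨v e, by rw [h', hv]⟩))]
      exact hv e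
  have hnr : ∀ (r s : G.edgeSet × Bool) i j, i ≤ k r.1 r.2 → j ≤ k s.1 s.2 →
      D.arc r.1 (q r.1 r.2 i) = D.arc s.1 (q s.1 s.2 j) → t r ≠ t s →
      D.arc r.1 (q r.1 r.2 i) ∉ range D.pos := by
    rintro r s i j hi hj h hne ⟨w, hw⟩
    exact hne ((hroot r i w hi hw.symm).symm.trans (hroot s j w hj (h.symm.trans hw.symm)))
  have hp : ∀ (r s : G.edgeSet × Bool) i j, i ≤ k r.1 r.2 → j ≤ k s.1 s.2 →
      D.arc r.1 (q r.1 r.2 i) = D.arc s.1 (q s.1 s.2 j) → D.arc r.1 (q r.1 r.2 i) ∉ range D.pos →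
      (r.1 = s.1 → t r = t s) ∧ (r.1 ≠ s.1 → t r ∈ (s.1 : Sym2 V) ∨ t s ∈ (r.1 : Sym2 V)) := by
    rintro ⟨e, b⟩ ⟨f, b'⟩ i j hi hj h hx
    have c1 := hown (e, b) i hi hx
    have c2 := hown (f, b') j hj (h ▸ hx)
    refine ⟨?_, fun hne => ?_⟩
    · rintro (rfl : e = f)
      have c3 : q e b i = q e b' j := D.arc_inj e h
      dsimp only at c1 c2
      rw [c3] at c1
      exact D.pos_inj (c1.symm.trans c2)
    · obtain ⟨w, w1, w2, w3 | w3⟩ := h2 e f _ _ hne h hx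
      · exact Or.inl (D.pos_inj (w3.trans c1) ▸ w2)
      · exact Or.inr (D.pos_inj (w3.trans c2) ▸ w1)
  have hmem : ∀ (e : G.edgeSet) x y, x ≠ y → x ∈ (e : Sym2 V) → y ∈ (e : Sym2 V) →
      (e : Sym2 V) = s(x, y) := fun e x y h a b => (Sym2.mem_and_mem_iff h).1 ⟨a, b⟩
  have htri : ∀ (r s g : G.edgeSet × Bool) i j l, i ≤ k r.1 r.2 → j ≤ k s.1 s.2 → l ≤ k g.1 g.2 →
      D.arc r.1 (q r.1 r.2 i) = D.arc s.1 (q s.1 s.2 j) →
      D.arc r.1 (q r.1 r.2 i) = D.arc g.1 (q g.1 g.2 l) → t r ≠ t s → t r ∈ (s.1 : Sym2 V) →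
      t g = t r ∨ t g = t s := by
    intro r s g i j l hi hj hl h h' hne hin
    have hx := hnr r s i j hi hj h hne
    have c1 := hmem _ _ _ hne hin (ht s)
    have c2 := hp g s l j hl hj (h'.symm.trans h) (h' ▸ hx)
    by_cases c3 : g.1 = s.1
    · exact Or.inr (c2.1 c3)
    rcases c2.2 c3 with c4 | c4
    · rwa [c1, Sym2.mem_iff] at c4
    obtain ⟨w, w1, w2, w3⟩ := h3 r.1 s.1 g.1 _ hx ⟨_, rfl⟩ ⟨_, h.symm⟩ ⟨_, h'.symm⟩
    rw [c1, Sym2.mem_iff] at w2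
    rcases w2 with rfl | rfl
    · have c5 := ht g
      rwa [hmem _ _ _ hne w3 c4, Sym2.mem_iff] at c5
    · exact absurd ((hp r s i j hi hj h hx).1
        (Subtype.ext ((hmem _ _ _ hne (ht r) w1).trans c1.symm))) hne
  have hcases : ∀ (r s : G.edgeSet × Bool) i j, i ≤ k r.1 r.2 → j ≤ k s.1 s.2 →
      D.arc r.1 (q r.1 r.2 i) = D.arc s.1 (q s.1 s.2 j) → t r ≠ t s →
      t r ∈ (s.1 : Sym2 V) ∨ t s ∈ (r.1 : Sym2 V) := fun r s i j hi hj h hne =>
    (hp r s i j hi hj h (hnr r s i j hi hj h hne)).2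
      fun h' => hne ((hp r s i j hi hj h (hnr r s i j hi hj h hne)).1 h')
  have w : Darts D.pos t (fun r i => D.arc r.1 (q r.1 r.2 i)) (fun r => k r.1 r.2) R := by
    refine ⟨D.pos_inj, ?_, fun r i hi => b3 r.1 r.2 i hi, a3, hroot, b4,
      fun r s i j hi hj h hne => ?_, fun r s g i j l hi hj hl h h' hne => ?_⟩
    · rintro ⟨e, _ | _⟩
      · exact (congrArg (D.arc e) (b1 e)).trans (hu e)
      · exact (congrArg (D.arc e) (b2 e)).trans (hv e)
    · rcases hcases r s i j hi hj h hne with c1 | c1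
      · exact ⟨s.1, Or.inr rfl, Sym2.eq_iff.1 ((hc s.1).symm.trans (hmem _ _ _ hne c1 (ht s)))⟩
      · exact ⟨r.1, Or.inl rfl, Sym2.eq_iff.1 ((hc r.1).symm.trans (hmem _ _ _ hne (ht r) c1))⟩
    · rcases hcases r s i j hi hj h hne with c1 | c1
      · exact htri r s g i j l hi hj hl h h' hne c1
      · exact (htri s r g j i l hj hi hl h.symm (h.symm.trans h') hne.symm c1).symm
  obtain ⟨T, t1, t2, t3, t4, t5⟩ := race w
  refine drawing_of_emb D.pos_inj (fun e b => t (e, b)) hc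
    (terr_minor (Emb S (G.edgeSet × unitInterval × unitInterval))
    (fun _ _ _ _ h => h.mono) (fun _ _ _ _ h => h.contract fun _ _ hO hp => exists_disc
      (E := EuclideanSpace ℝ (Fin 2)) hO hp) (fun e => t (e, false)) (fun e => t (e, true)) _ W R T
    (Nat.lt_succ_self _) a1 t1 (fun v x hx => ?_) t2 t3 t5)
  rcases t4 v x hx with rfl | ⟨r, i, hi, rfl⟩
  · exact a2 v
  · exact b5 r.1 r.2 i hi

/-- The case of cuts at the ends: orientations in which edges that meet have different heads. -/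
theorem distinct_heads_of_cut [Finite V] [T2Space S] [ChartedSpace (EuclideanSpace ℝ (Fin 2)) S]
    (D : Drawing G S) (head : G.edgeSet → V) (hhead : ∀ e : G.edgeSet, head e ∈ (e : Sym2 V))
    (h3 : ∀ (e f g : G.edgeSet) (x : S), x ∉ range D.pos → x ∈ range (D.arc e) →
      x ∈ range (D.arc f) → x ∈ range (D.arc g) →
      ∃ v, v ∈ (e : Sym2 V) ∧ v ∈ (f : Sym2 V) ∧ v ∈ (g : Sym2 V))
    (h2 : ∀ e f : G.edgeSet, e ≠ f → D.Meet e f → head e ≠ head f) :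
    ∃ D' : Drawing G S, ∀ e f, e ≠ f → ¬ D'.Meet e f := by
  classical
  choose u v hc hu hv using D.ends
  have hint : ∀ e s, D.arc e s ∉ range D.pos → s ≠ 0 ∧ s ≠ 1 := fun e s h =>
    ⟨by rintro rfl; exact h ⟨u e, (hu e).symm⟩, by rintro rfl; exact h ⟨v e, (hv e).symm⟩⟩
  have key : ∀ (e : G.edgeSet) (s : unitInterval) w, s ≠ 0 → w ∈ (e : Sym2 V) → w ≠ head e →
      D.pos w = D.arc e (if s ≤ (if head e = v e then 1 else 0) then 0 else 1) := by
    intro e s w hs hw hne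
    have h1 := hhead e
    rw [hc, Sym2.mem_iff] at hw h1
    by_cases h : head e = v e
    · rw [if_pos h, if_pos (show s ≤ 1 from s.2.2), hu, hw.resolve_right (h ▸ hne)]
    · rw [if_neg h, if_neg fun h' : s ≤ 0 => hs (le_antisymm h' s.2.1), hv,
        hw.resolve_left (h1.resolve_right h ▸ hne)]
  refine cut_edges D (fun e => if head e = v e then 1 else 0) h3 fun e f s t hne h hx => ?_
  obtain ⟨w, w1, w2, -⟩ := h3 e f f _ hx ⟨_, rfl⟩ ⟨_, h.symm⟩ ⟨_, h.symm⟩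
  have a1 := hint e s hx
  have a2 := hint f t (h ▸ hx)
  have a3 := h2 e f hne ⟨s, t, a1.1, a1.2, a2.1, a2.2, h⟩
  refine ⟨w, w1, w2, ?_⟩
  by_cases a4 : w = head e
  · exact Or.inr (key f t w a2.1 w2 (a4 ▸ a3))
  · exact Or.inl (key e s w a1.1 w1 a4)

end Pool.Agent.Lib.CE45
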